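import Pool.Agent.Lib.SBP.Main

/-!
Sidon sets representing integers with summands of prescribed sizes: the answer is yes for all
pairs `(a, b)` with `a + b > √2`.
-/

namespace Pool.Agent.Results.MP_348f18_nt.AboveSqrtTwo

/-- For all reals `0 ≤ a ≤ b ≤ 1` with `a + b > √2` there is a Sidon set `S` of naturals and
constants `C, c > 0` such that every large `m` equals `s₁ + s₂ + s₃` with `sᵢ ∈ S`, `s₁ ≤ C m ^ a`,
`s₂ ≤ C m ^ b`, `c m ≤ s₃ ≤ C m`. -/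
theorem result :
    ∀ a b : ℝ, 0 ≤ a → a ≤ b → b ≤ 1 → Real.sqrt 2 < a + b →
      ∃ S : Set ℕ,
        (∀ x ∈ S, ∀ y ∈ S, ∀ z ∈ S, ∀ w ∈ S,
            x + y = z + w → (x = z ∧ y = w) ∨ (x = w ∧ y = z)) ∧
        ∃ C : ℝ, 0 < C ∧ ∃ c : ℝ, 0 < c ∧ ∃ N : ℕ, ∀ m : ℕ, N ≤ m →
          ∃ s₁ ∈ S, ∃ s₂ ∈ S, ∃ s₃ ∈ S,
            m = s₁ + s₂ + s₃ ∧
            (s₁ : ℝ) ≤ C * (m : ℝ) ^ a ∧
            (s₂ : ℝ) ≤ C * (m : ℝ) ^ b ∧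
            c * (m : ℝ) ≤ (s₃ : ℝ) ∧
            (s₃ : ℝ) ≤ C * (m : ℝ) :=
  fun a b _ hab hb h => Pool.Agent.SBP.sidon_prescribed a b hab hb h

end Pool.Agent.Results.MP_348f18_nt.AboveSqrtTwo
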